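import Pool.Agent.KS6_13.AR.Joint

/-!
# Permutations avoiding `321` and the arrow pattern `(12; 1 → 3)`: joint distribution of the cycle statistics

Permutations `π` of `1, …, n` are words `w` (one-line notation). `π̂ = θ⁻¹(π)` is the permutation whose
standard cycle form becomes `w` when the parentheses are deleted. For the permutations avoiding `321` and
`(12; 1 → 3)` we count exactly those for which `π̂` has `l` cycles and the cycle of `π̂` that contains `n`
has `c` elements. Summation over `c` gives `C(2n-l-1, l-1)`, summation over `l` and `c` gives the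
Fibonacci number `F_{2n-1}` of the question.
-/

set_option autoImplicit false

namespace Pool.Agent.Results.MP_1ce666_co.JointCycleCount

open List

/-- `L` is a list of cycles in standard form: each cycle is non-empty and begins with its largest
entry, and the cycles are ordered by increasing largest entry. -/
def Std (L : List (List ℕ)) : Prop :=
  (∀ c ∈ L, c ≠ [] ∧ ∀ z ∈ c, z ≤ c.headI) ∧ (L.map List.headI).Pairwise (· < ·)

/-- The cycle written as the word `c` sends `x` to `y`. -/
def CycNext (c : List ℕ) (x y : ℕ) : Prop :=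
  (∃ p q, c = p ++ x :: y :: q) ∨ (∃ p, c = p ++ [x] ∧ y = c.headI)

/-- `Hat w x y`: the permutation whose standard cycle form becomes the word `w` after deleting the
parentheses sends `x` to `y`. -/
def Hat (w : List ℕ) (x y : ℕ) : Prop :=
  ∃ L, Std L ∧ L.flatten = w ∧ ∃ c ∈ L, CycNext c x y

/-- The word avoids `321`. -/
def Av321 (w : List ℕ) : Prop := ¬ ∃ a b c : ℕ, a < b ∧ b < c ∧ [c, b, a] <+ w

/-- The word avoids the arrow pattern `(12; 1 → 3)`. -/
def AvArrow (w : List ℕ) : Prop :=
  ¬ ∃ x₁ x₂ x₃ : ℕ, x₁ < x₂ ∧ x₂ < x₃ ∧ [x₁, x₂] <+ w ∧ Hat w x₁ x₃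

/-- The permutations of `1, …, n` (words) which avoid `321` and `(12; 1 → 3)`. -/
def A (n : ℕ) : Set (List ℕ) := {w | w ~ List.range' 1 n ∧ Av321 w ∧ AvArrow w}

/-- `π̂` has exactly `l` cycles. -/
def Cycles (w : List ℕ) (l : ℕ) : Prop := ∃ L, Std L ∧ L.flatten = w ∧ L.length = l

/-- `π̂` has exactly `l` cycles, and its last cycle in the standard form, that is the cycle which contains
the largest entry, has exactly `c` elements. -/
def CyclesLast (w : List ℕ) (l c : ℕ) : Prop :=
  ∃ L C, Std (L ++ [C]) ∧ (L ++ [C]).flatten = w ∧ (L ++ [C]).length = l ∧ C.length = c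

open Pool.Agent.KS6_13.AR in
theorem A_eq (m : ℕ) : A (m + 1) = Pool.Agent.Results.MP_1ce666_co.Count.G (m + 1) := by
  ext w
  refine and_congr_right fun h => and_congr_right fun h1 => ?_
  exact Pool.Agent.Results.MP_1ce666_co.Count.arrow_iff (h.nodup_iff.2 (List.nodup_range' _)) h1

theorem std_unique : ∀ (k : ℕ) (L L' : List (List ℕ)), L.flatten.length ≤ k → L.flatten.Nodup →
    Std L → Std L' → L.flatten = L'.flatten → L = L' := by
  intro k
  induction k with
  | zero =>
    intro L L' hk hn hL hL' e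
    have h0 : L.flatten = [] := List.length_eq_zero_iff.1 (by omega)
    have aux : ∀ M : List (List ℕ), Std M → M.flatten = [] → M = [] := by
      intro M hM hf
      rcases List.eq_nil_or_concat' M with rfl | ⟨M', C, rfl⟩
      · rfl
      · exfalso
        simp at hf
        exact (hM.1 C (by simp)).1 hf.2
    rw [aux L hL h0, aux L' hL' (e ▸ h0)]
  | succ k ih =>
    intro L L' hk hn hL hL' e
    rcases List.eq_nil_or_concat' L with rfl | ⟨L1, C, rfl⟩
    · rcases List.eq_nil_or_concat' L' with rfl | ⟨L1', C', rfl⟩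
      · rfl
      · exfalso
        simp at e
        exact (hL'.1 C' (by simp)).1 e.2
    · obtain ⟨hC, hC2⟩ := hL.1 C (by simp)
      obtain ⟨N, v, rfl⟩ := List.exists_cons_of_ne_nil hC
      have hw : (L1 ++ [N :: v]).flatten = L1.flatten ++ N :: v := by simp
      rw [hw] at hn e hk
      have hNv : N ∉ v := (List.nodup_cons.1 (List.nodup_append.1 hn).2.1).1
      have hv : ∀ x ∈ v, x < N := by
        intro x hx
        have h1 := hC2 x (by simp [hx])
        simp only [List.headI_cons] at h1
        rcases Nat.lt_or_eq_of_le h1 with h1 | h1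
        · exact h1
        · exact absurd (h1 ▸ hx) hNv
      have hu : ∀ x ∈ L1.flatten, x < N := by
        intro x hx
        obtain ⟨D, hD, hxD⟩ := List.mem_flatten.1 hx
        have h2 := hL.2
        rw [List.map_append, List.pairwise_append] at h2
        have h3 := h2.2.2 D.headI (List.mem_map_of_mem hD) N (by simp)
        have h4 := (hL.1 D (by simp [hD])).2 x hxD
        omega
      rcases List.eq_nil_or_concat' L' with rfl | ⟨L1', C', rfl⟩
      · simp at e
      · obtain ⟨e1, e2⟩ := Pool.Agent.KS6_13.AR.last_cycle hu hv hL' e.symm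
        subst e2
        rw [ih L1 L1' (by rw [List.length_append, List.length_cons] at hk; omega)
          (List.nodup_append.1 hn).1 (Pool.Agent.KS6_13.AR.std_left hL)
          (Pool.Agent.KS6_13.AR.std_left hL') e1.symm]

/-- **The joint distribution of the number of cycles of `π̂` and of the size of the cycle of `π̂` that
contains `n`** on the permutations `π` of `1, …, n` which avoid `321` and `(12; 1 → 3)`.
(0) Every permutation has exactly one standard cycle form, so that `π̂` is well defined.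
(1) For `l, c ≥ 1` the number of the `π` such that `π̂` has `l` cycles and the cycle of `n` has `c`
elements is `C(2n-l-c-1, l-2)` if `l + c ≤ n` and `l ≥ 2`, it is `0` if `l = 1` and `c < n`, it is
`C(n-1, l-1)` if `l + c = n + 1`, and `0` if `l + c > n + 1`.
(2) For `l ≥ 1` the number of the `π` such that `π̂` has `l` cycles is `C(2n-l-1, l-1)`.
(3) The number of all these `π` is `F_{2n-1}`. -/
theorem result (n : ℕ) (hn : 1 ≤ n) :
    (∀ w : List ℕ, w ~ List.range' 1 n → ∃! L, Std L ∧ L.flatten = w) ∧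
    (∀ l c : ℕ, 1 ≤ l → 1 ≤ c →
      {w | w ∈ A n ∧ CyclesLast w l c}.ncard =
        if l + c ≤ n then (if l = 1 then 0 else (2 * n - l - c - 1).choose (l - 2))
        else if l + c = n + 1 then (n - 1).choose (l - 1) else 0) ∧
    (∀ l : ℕ, 1 ≤ l → {w | w ∈ A n ∧ Cycles w l}.ncard = (2 * n - l - 1).choose (l - 1)) ∧
    (A n).ncard = Nat.fib (2 * n - 1) := by
  obtain ⟨m, rfl⟩ : ∃ m, n = m + 1 := ⟨n - 1, by omega⟩
  refine ⟨?_, ?_, ?_, ?_⟩
  · intro w hw
    have hnd : w.Nodup := hw.nodup_iff.2 (List.nodup_range' _)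
    obtain ⟨L, hL, hf⟩ := Pool.Agent.Results.MP_1ce666_co.Count.exists_std w hnd
    refine ⟨L, ⟨hL, hf⟩, ?_⟩
    rintro L' ⟨hL', hf'⟩
    exact std_unique _ L' L le_rfl (hf' ▸ hnd) hL' hL (hf'.trans hf.symm)
  · intro l c hl hc
    obtain ⟨k, rfl⟩ : ∃ k, l = k + 1 := ⟨l - 1, by omega⟩
    obtain ⟨j, rfl⟩ : ∃ j, c = j + 1 := ⟨c - 1, by omega⟩
    have e : {w | w ∈ A (m + 1) ∧ CyclesLast w (k + 1) (j + 1)} =
        (fun x : List ℕ × List ℕ => x.1 ++ (m + 1) :: x.2) ''
          Pool.Agent.KS6_13.AR.XS m k (fun i => i = j) := by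
      ext w
      constructor
      · rintro ⟨h1, h2⟩
        rw [A_eq, Pool.Agent.Results.MP_1ce666_co.Count.G_succ] at h1
        obtain ⟨y, hy, rfl⟩ := h1
        have h4 := Pool.Agent.Results.MP_1ce666_co.Count.lt_of_perm hy.1
        obtain ⟨h5, h6⟩ := (Pool.Agent.KS6_13.AR.cycLast_iff (fun x hx => h4 x (by simp [hx]))
          (fun x hx => h4 x (by simp [hx]))).1 h2
        exact ⟨y, ⟨hy, h5, h6⟩, rfl⟩
      · rintro ⟨y, ⟨hy, h5, h6⟩, rfl⟩
        have h4 := Pool.Agent.Results.MP_1ce666_co.Count.lt_of_perm hy.1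
        refine ⟨?_, (Pool.Agent.KS6_13.AR.cycLast_iff (fun x hx => h4 x (by simp [hx]))
          (fun x hx => h4 x (by simp [hx]))).2 ⟨h5, h6⟩⟩
        rw [A_eq, Pool.Agent.Results.MP_1ce666_co.Count.G_succ]
        exact ⟨y, hy, rfl⟩
    rw [e, Set.ncard_image_of_injOn
      ((Pool.Agent.Results.MP_1ce666_co.Count.G_inj m).mono fun _ h => h.1),
      Pool.Agent.KS6_13.AR.joint]
    rcases Nat.lt_trichotomy (j + k) m with hk | hk | hk
    · rw [if_pos (by omega)]
      rcases k with _ | k
      · rw [Pool.Agent.KS6_13.AR.f_lt0 (by omega)]; simp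
      · rw [Pool.Agent.KS6_13.AR.f_lt hk, if_neg (by omega)]
        congr 1
        omega
    · rw [if_neg (by omega), if_pos (by omega), Pool.Agent.KS6_13.AR.f_eq hk]
      simp
    · rw [if_neg (by omega), if_neg (by omega), Pool.Agent.KS6_13.AR.f_gt hk]
  · intro l hl
    obtain ⟨k, rfl⟩ : ∃ k, l = k + 1 := ⟨l - 1, by omega⟩
    have e : {w | w ∈ A (m + 1) ∧ Cycles w (k + 1)} = Pool.Agent.KS6_13.AR.GS (m + 1) (k + 1) := by
      rw [A_eq]; rfl
    rw [e, Pool.Agent.KS6_13.AR.GS_succ, (Pool.Agent.KS6_13.AR.totals m).1]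
    congr 1
    omega
  · rw [A_eq, Pool.Agent.Results.MP_1ce666_co.Count.G_succ,
      Set.ncard_image_of_injOn (Pool.Agent.Results.MP_1ce666_co.Count.G_inj m),
      (Pool.Agent.Results.MP_1ce666_co.Count.counts m).1]
    congr 1

end Pool.Agent.Results.MP_1ce666_co.JointCycleCount
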